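import Pool.Agent.Helper73.CPN.Test

/-! The list of the former version of `CyclicPlanes` is contained in the new one. -/

set_option autoImplicit false

namespace Pool.Agent.Helper73.CPN.Superset

open IntermediateField MvPolynomial

/-- the definition of the former version -/
def IsCurve (Ω R M : Type) [Field Ω] [Field R] [Field M] [Algebra Ω M] [Algebra R M] : Prop :=
  ∃ (n r : ℕ) (d e : Fin r → ℕ) (f : Fin r → MvPolynomial (Fin 2) Ω) (x y w : M),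
    (∀ r : R, algebraMap R M r ∈ adjoin Ω {x, y}) ∧ adjoin Ω {x, y, w} = ⊤ ∧
    Module.finrank (adjoin Ω {x, y}) M = n ∧
    (∀ i, (f i).totalDegree ≤ d i) ∧ n ∣ ∑ i, d i * e i ∧
    (n ≤ 10 ∧ (∀ k < n, 2 * k ≠ n ∨ n = 2 → ∑ i, d i * (k * e i % n) ≤ 2 * n ∨
        ∑ i, d i * ((n - k) * e i % n) ≤ 2 * n) ∨
      r ≤ 3 ∧ (∑ i, d i ≤ 4 ∨ ∑ i, d i = 5 ∧ (Finset.univ.filter fun i => d i = 1).card ≤ 1)) ∧
    w ^ n = ∏ i, aeval ![x, y] (f i) ^ e i

theorem isCurve {Ω R M : Type} [Field Ω] [Field R] [Field M] [Algebra Ω M] [Algebra R M]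
    (h : IsCurve Ω R M) : Pool.Agent.Helper73.CPN.Test.IsCurve Ω R M := by
  obtain ⟨n, r, d, e, f, x, y, w, hR, hM, hn, hf, hdvd, h, hw⟩ := h
  refine ⟨n, 1, 1, r, d, e, f, x, y, w, hR, hM, hn, fun i m hm => ?_, hdvd, ?_, hw⟩
  · have h1 := (le_totalDegree hm).trans (hf i)
    rw [Finsupp.sum_fintype _ _ (fun _ => rfl), Fin.sum_univ_two] at h1
    rw [one_mul, one_mul]
    exact h1
  · rcases h with ⟨hn, h⟩ | ⟨hr, h⟩
    · refine Or.inl ⟨Or.inr ⟨rfl, rfl, hn⟩, fun k hk h3 => ?_⟩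
      have h4 := h k hk h3
      rwa [mul_comm 2] at h4
    · exact Or.inr ⟨rfl, rfl, hr, h⟩

end Pool.Agent.Helper73.CPN.Superset
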