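import Pool.Agent.Helper48.V10.Ell
import Pool.Agent.Helper48.V9.Fg
import Pool.Agent.Helper48.V9.Power
import Pool.Agent.Helper48.V9.Weighted
import Pool.Agent.Helper73.V7.PrimN
import Pool.Agent.Helper75.SP.ConvFrob

/-!
# Frobenius on the second cohomology of abelian covers and of elliptic surfaces

Let `K` be the function field of a surface over `Ω`, an algebraic closure of the field with `p`
elements. Let `K` be a finite abelian extension of a field `R`, such that every intermediate field
`M` with a cyclic Galois group `Gal(M / R)` either is good (Frobenius is semisimple on its second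
cohomology), or satisfies one of the following two conditions (`IsCover`).

(1) `IsTwist`: `M = B(w)`, `w ^ n ∈ B`, `n = [M : B]`, for the function field `B` of some surface,
`R ⊆ B ⊆ M` (for example `B = R`), and for some `a`, `b` the threefold
`v ^ a * (1 - v) ^ b = (s * w) ^ n` over `B` is uniruled, where `n` and `gcd(a, b)` are relatively
prime and `a`, `b`, `a + b` are not multiples of `n`. It is the quotient by the cyclic group of the
product of the surface with the curve `u ^ n = v ^ a * (1 - v) ^ b`. On a smooth model of `B` with a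
branch curve with normal crossings, let `L⁻¹` be the eigensheaf of the cover for a faithful
character. For `n = 3, 4, 6` this curve can be chosen elliptic, and the canonical class of a relative
minimal model over `B` of the threefold is the inverse image of `K_B + L`. So for `p > 5` the threefold
is uniruled if `K_B + L` is not pseudo-effective, by the minimal model program; this condition implies
`h ^ {2, 0} = 0` for this character. (So if `S` is any surface with an automorphism `σ` of order
three, it is enough that `K_B + L` is not pseudo-effective for `B = S / σ` and one of the two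
characters.)

(2) `IsCurve`: `M = Ω(x, y, w)`, `R ⊆ Ω(x, y)`, `n = [M : Ω(x, y)]`, and
`w ^ n = f₁(x, y) ^ e₁ * ⋯ * fᵣ(x, y) ^ eᵣ`, branched along a curve in the plane, or in the weighted
plane `P(a, b, 1)`, with components of the degrees `dᵢ`, where

* either `n ≤ 10` for the plane, `n ≤ 6` for the weighted planes, and for every character of
  `Gal(M / Ω(x, y))` of order greater than two (and for the character of order two if `n = 2`)
  `h ^ {2, 0}` or `h ^ {0, 2}` is zero, if the curve has only nodes; this is so for all plane curves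
  of degree at most five;
* or `n` is arbitrary, there are at most three components in the plane, and the degree of the curve
  is at most four, or is five and there is at most one line.

No other condition on the curve is imposed. The weighted planes `P(1, m, 1)` are birational to the
ruled surfaces `F_m`.

Then Frobenius is semisimple on the second cohomology of every surface over a finite field which is
dominated, over an algebraic closure, by a surface with the function field `K`.

Examples of `IsCover` (proved below), for every `n` prime to `p`: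

* `elliptic_power`: all elliptic surfaces `y ^ 2 = x ^ 3 + A(w ^ n) * x + B(w ^ n)`, `deg A ≤ 2`,
  `deg B ≤ 3`, more generally `y ^ 2 + a₁ * x * y + a₃ * y = x ^ 3 + a₂ * x ^ 2 + a₄ * x + a₆`, where `aᵢ`
  is a polynomial in `w ^ n` of degree at most `i / 2`. The geometric genus is `⌈n / 2⌉ - 1`, there are
  five moduli, and the eigenspaces of `H 2` have dimension at most six and
  `h ^ {2, 0} + h ^ {0, 2} ≤ 1`. The proof: `w ^ n = v * (1 - v) / s ^ n` makes the threefold a family of
  rational elliptic surfaces over the `s`-line;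
* `elliptic_power_K3`: the degree of `aᵢ` is at most `i * (1 + ⌊n / 2⌋) / n`. For `n = 4` the surfaces
  `y ^ 2 = x ^ 3 + A(w ^ 4) * x + B(w ^ 4)`, `deg A ≤ 3`, `deg B ≤ 4`, of geometric genus two, and for
  `n = 6` the surfaces `y ^ 2 = x ^ 3 + A(w ^ 6) * x + B(w ^ 6)`, `deg A ≤ 2`, `deg B ≤ 4`, of geometric
  genus three. For even `n` it is a hypothesis that the K3 surface with the coordinate `w ^ (n / 2)`
  is good; this is known (Deligne, Pjateckij-Šapiro and Šafarevič);
* `double_power`: double planes `y ^ 2 = G(x, w ^ n) * y + F(x, w ^ n)`, where for the weights `a`, `1`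
  of `x`, `w` the degrees of `G` and `F` are at most `S` and `2 * S`, `S = a + 1 + ⌊n / 2⌋`, with the
  same hypothesis for even `n`; for example `y ^ 2 = w ^ 8 + w ^ 4 * f(x) + g(x)`, `deg f ≤ 4`,
  `deg g ≤ 8`;
* `power`: `F(x, y, w ^ n) = 0`, where the degree of `F` for some weights `a`, `b`, `2 * c` of the
  variables is at most `a + b + c`.

Other examples of `IsTwist`:

* `w ^ n = f ^ s * h ^ t / g ^ (s + t)`, where `s`, `t` are coprime and the degree of
  `f - r ^ t * g + r ^ (s + t) * h` is at most `a + b + c` for some weights `a, b, c` of `x, y, r`, for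
  example if `f`, `g`, `h` are of degree two (`Helper9/TR`);
* `w ^ n = f(x, y)`, if for some weights `a`, `b` of `x`, `y` and all `k` prime to `n`,
  `k * deg f ≤ n * (a + b)` or `(n - k) * deg f ≤ n * (a + b)` (`Helper73/V7/Power.lean`).

So `K / R` may be any abelian extension of `R = Ω(x, y)` of exponent at most ten (at most six for the
weighted planes), prime to `p`, branched along any curve, if `h ^ {2, 0} * h ^ {0, 2} = 0` for the
parts of `H ^ 2` which belong to the characters of `Gal(K / R)` of order greater than two and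
`h ^ {2, 0} ≤ 1` for those of order two (double planes which are K3 surfaces are good); these numbers
are to be computed from the degrees, as if the curve had only nodes. This is the case for every plane
curve of degree at most five.

`H i K` is the part of weight `i` of the cohomology in degree `i` of the generic point of a
variety with function field `K`. An eigenclass for a character of `Gal(K / R)` comes from the fixed
field `M` of its kernel, where it is an eigenclass for a faithful character. Let `P` be a field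
between `R` and `M` for which `M = P(w)`, `w ^ n ∈ P`, and let `C` be the curve
`u ^ n = v ^ α (1 - v) ^ β` with its automorphisms `u ↦ ζ u`. For the eigenspace `E` of `H 2 M` and
the eigenspace `E'` of `H 1 C` for the inverse character, `E ⊗ E'` comes from the threefold
`v ^ α (1 - v) ^ β = s ^ n w ^ n` over `P`, which is uniruled: it is a family of rational surfaces or
of conics, or a double cover of a weighted projective space branched along a hypersurface of small
degree. So `E ⊗ E'` has coniveau one: it comes from the first cohomology of surfaces, where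
Frobenius is semisimple. Then it is semisimple on `E`. That every branch curve in the plane with the
condition on the sums has such a threefold is a finite computation for the multisets of the exponents:
675 certificates, checked by `decide` (`Helper43/V7`, `Helper75/WC/Curve*.lean`), and nine special
types (`Helper15/WC/Step8.lean`, `Helper48/V7`, `Helper73/V7`, `Helper35/V7`), among them a family of
surfaces over an elliptic curve.
-/

set_option autoImplicit false

namespace Pool.Agent.Helper73.CPN.Test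

open IntermediateField MvPolynomial Pool.Agent.Helper75.SP

/-- The equation `w ^ n = f₁(x, y) ^ e₁ * ⋯ * fᵣ(x, y) ^ eᵣ`, `n = [M : Ω(x, y)]`, `M = Ω(x, y, w)`,
`R ⊆ Ω(x, y)`, for a curve with the equation `F₁ * ⋯ * Fᵣ = 0` in the weighted plane `P(a, b, 1)`,
where `Fᵢ(x, y, 1) = fᵢ` and `dᵢ = deg Fᵢ`. Either `n ≤ 6`, or `n ≤ 10` and `a = b = 1`, the curve is
arbitrary, and `h ^ {2, 0} * h ^ {0, 2} = 0` for all the characters of order different from one and
two (and for the character of order two if `n = 2`), if the curve has only nodes: the Hodge number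
`h ^ {2, 0}` of the character `k` or `-k` is zero if `∑ dᵢ * (k * eᵢ % n) ≤ n * (a + b)` (if and only
if, for `a = b = 1`). Or `a = b = 1`, there are at most three components and the degree is at most
four, or five and at most one `Fᵢ` is linear. -/
def IsCurve (Ω R M : Type) [Field Ω] [Field R] [Field M] [Algebra Ω M] [Algebra R M] : Prop :=
  ∃ (n a b r : ℕ) (d e : Fin r → ℕ) (f : Fin r → MvPolynomial (Fin 2) Ω) (x y w : M),
    (∀ r : R, algebraMap R M r ∈ adjoin Ω {x, y}) ∧ adjoin Ω {x, y, w} = ⊤ ∧
    Module.finrank (adjoin Ω {x, y}) M = n ∧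
    (∀ i, ∀ m ∈ (f i).support, a * m 0 + b * m 1 ≤ d i) ∧ n ∣ ∑ i, d i * e i ∧
    ((0 < a + b ∧ n ≤ 6 ∨ a = 1 ∧ b = 1 ∧ n ≤ 10) ∧
        (∀ k < n, 2 * k ≠ n ∨ n = 2 → ∑ i, d i * (k * e i % n) ≤ n * (a + b) ∨
          ∑ i, d i * ((n - k) * e i % n) ≤ n * (a + b)) ∨
      a = 1 ∧ b = 1 ∧ r ≤ 3 ∧
        (∑ i, d i ≤ 4 ∨ ∑ i, d i = 5 ∧ (Finset.univ.filter fun i => d i = 1).card ≤ 1)) ∧
    w ^ n = ∏ i, aeval ![x, y] (f i) ^ e i

/-- `M = B(w)`, `w ^ n ∈ B`, `n = [M : B]`, where `B = Ω(x, y, z)` is the function field of a surface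
and contains `R`, and the threefold `v ^ a * (1 - v) ^ b = (s * w) ^ n` over `B` is uniruled. -/
def IsTwist (Ω R M : Type) [Field Ω] [Field R] [Field M] [Algebra Ω M] [Algebra R M] : Prop :=
  ∃ (n a b : ℕ) (x y z w : M), IsAlgebraic (adjoin Ω {x, y}) z ∧
    (∀ r : R, algebraMap R M r ∈ adjoin Ω {x, y, z}) ∧ adjoin Ω {x, y, z, w} = ⊤ ∧
    Module.finrank (adjoin Ω {x, y, z}) M = n ∧ w ^ n ∈ adjoin Ω {x, y, z} ∧
    (a.gcd b).Coprime n ∧ ¬ n ∣ a ∧ ¬ n ∣ b ∧ ¬ n ∣ a + b ∧
    ∀ (N : Type) [Field N] [Algebra Ω N] (g : M →ₐ[Ω] N) (v s : N),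
      Transcendental g.fieldRange v → v ^ a * (1 - v) ^ b = (s * g w) ^ n →
      Pool.Agent.Helper75.QC.Uniruled Ω (adjoin Ω {g x, g y, g z, v, s} : IntermediateField Ω N) 3

/-- `K` is finitely generated and every relative Frobenius is semisimple on its second
cohomology. -/
def IsGood {p : ℕ} {Ω L : Type} [Field Ω] [Field L] (T : Theory p Ω L) (K : Type) [Field K]
    [Algebra Ω K] : Prop :=
  IsFG Ω K ∧ ∀ (e : ℕ) (φ : K →ₐ[Ω] K), 0 < e → IsFrob (p ^ e) φ →
    Module.End.IsSemisimple (T.map 2 φ)

/-- `K` is a finite abelian extension of a field `R`, and every field `M` between them with a cyclic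
group `Gal(M / R)` is good or satisfies one of the conditions. -/
def IsCover {p : ℕ} {Ω L : Type} [Field Ω] [Field L] (T : Theory p Ω L) (K : Type) [Field K]
    [Algebra Ω K] : Prop :=
  ∃ R : IntermediateField Ω K, FiniteDimensional R K ∧ IsGalois R K ∧
    (∀ g h : K ≃ₐ[R] K, g * h = h * g) ∧
    ∀ M : IntermediateField R K, IsCyclic (M ≃ₐ[R] M) →
      IsGood T M ∨ IsTwist Ω R M ∨ IsCurve Ω R M

theorem IsCurve.row {Ω R M : Type} [Field Ω] [IsAlgClosed Ω] [Field R] [Field M] [Algebra Ω R]
    [Algebra Ω M] [Algebra R M] [IsScalarTower Ω R M] [FiniteDimensional R M] [IsGalois R M]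
    (h : IsCurve Ω R M) :
    Pool.Agent.Helper75.QC.Uniruled Ω M 2 ∨ Pool.Agent.Helper35.V7.LstN Ω R M := by
  obtain ⟨n, a, b, r, d, e, f, x, y, w, hR, hM, rfl, hf, hdvd, h, hw⟩ := h
  have hdeg : a = 1 → b = 1 → ∀ i, (f i).totalDegree ≤ d i := by
    rintro rfl rfl i
    refine Finset.sup_le fun m hm => ?_
    have h1 := hf i m hm
    rw [one_mul, one_mul] at h1
    rw [Finsupp.sum_fintype _ _ (fun _ => rfl), Fin.sum_univ_two]
    exact h1
  have hplane : ∀ h1 : a = 1, ∀ h2 : b = 1, _ → _ := fun h1 h2 h3 =>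
    Pool.Agent.Helper48.V7.IsListed.row (Ω := Ω) (R := R) (M := M)
      ⟨x, y, w, hR, hM, Or.inl ⟨r, d, e, f, hdeg h1 h2, hdvd, h3, hw⟩⟩
  rcases h with ⟨⟨hab, hn⟩ | ⟨h1, h2, hn⟩, hnat⟩ | ⟨h1, h2, h3⟩
  · refine (Pool.Agent.Helper48.V9.IsWCurve.row (R := R) x y w hR hM
      ⟨a, b, r, d, e, f, hab, hn, hf, fun k hk hkn => hnat k hk ?_, hw⟩).imp id Or.inl
    by_contra hcon
    push Not at hcon
    obtain ⟨h1, h2⟩ := hcon
    have h3 : k ∣ 1 := by
      rw [← hkn]
      exact Nat.dvd_gcd dvd_rfl ⟨2, by rw [← h1, mul_comm]⟩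
    have h4 := Nat.dvd_one.1 h3
    omega
  · subst h1 h2
    refine hplane rfl rfl (Or.inl ⟨hn, fun k hk h3 => ?_⟩)
    have h4 := hnat k hk h3
    rwa [mul_comm 2]
  · exact hplane h1 h2 (Or.inr h3)

section Examples

variable {p : ℕ} {Ω L : Type} [Field Ω] [Field L] {T : Theory p Ω L} {K : Type} [Field K]
  [Algebra Ω K]

/-- Frobenius acts on the second cohomology of a uniruled surface by zero. -/
theorem isGood_of_uniruled {M : Type} [Field M] [Algebra Ω M] (hM : (⊤ : IntermediateField Ω M).FG)
    (h : Pool.Agent.Helper75.QC.Uniruled Ω M 2) : IsGood T M :=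
  ⟨hM, fun _ φ _ _ => Pool.Agent.Helper75.TC.semisimple_of_uniruled T.toTheory h φ⟩

/-- from the data of the libraries -/
theorem isCover_of_rows {x y w : K} {n : ℕ} (hK : adjoin Ω {x, y, w} = ⊤)
    (h2 : ∀ m, n = 2 * m → IsGood T (adjoin Ω {x, y, w ^ m} : IntermediateField Ω K))
    (h : ∃ R : IntermediateField Ω K, FiniteDimensional R K ∧ IsGalois R K ∧
      (∀ g h : K ≃ₐ[R] K, g * h = h * g) ∧
      ∀ M : IntermediateField R K, Pool.Agent.Helper75.QC.Uniruled Ω M 2 ∨
        Pool.Agent.Helper35.V7.Row3 Ω R M ∨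
        ∃ m, n = 2 * m ∧ M.restrictScalars Ω = adjoin Ω {x, y, w ^ m}) : IsCover T K := by
  obtain ⟨R, h3, h4, h5, h6⟩ := h
  refine ⟨R, h3, h4, h5, fun M _ => ?_⟩
  rcases h6 M with h | h | ⟨m, hm, hM⟩
  · exact Or.inl (isGood_of_uniruled (Pool.Agent.Helper48.V9.fg_sub_alg (M.restrictScalars Ω)
      (hK ▸ fg_adjoin_of_finite (Set.toFinite _)) fun a =>
        Algebra.IsAlgebraic.isAlgebraic (R := M) a) h)
  · exact Or.inr (Or.inl (Pool.Agent.Helper73.V7.IsTwist.of_row3 h))
  · have h7 := h2 m hm
    rw [← hM] at h7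
    exact Or.inl h7

variable [IsAlgClosed Ω]

/-- **Pullbacks.** `K = Ω(x, y, w)`, `n = [K : Ω(x, y, w ^ n)]` is not zero in `Ω`, and
`F(x, y, w ^ n) = 0` for a polynomial `F ≠ 0` of degree at most `a + b + c` for some weights
`a, b, 2 * c` of its variables. -/
theorem power (n : ℕ) (hn : (n : Ω) ≠ 0) (a b c : ℕ) (F : MvPolynomial (Fin 3) Ω) (x y w : K)
    (hK : adjoin Ω {x, y, w} = ⊤) (hd : Module.finrank (adjoin Ω {x, y, w ^ n}) K = n)
    (habc : 0 < a + b + c) (hF : F ≠ 0)
    (hdeg : ∀ m ∈ F.support, a * m 0 + b * m 1 + 2 * c * m 2 ≤ a + b + c)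
    (h0 : aeval ![x, y, w ^ n] F = 0) : IsCover T K := by
  obtain ⟨R, h1, h2, h3, h4⟩ :=
    Pool.Agent.Helper48.V9.power_rows hn a b c F x y w hK hd habc hF hdeg h0
  refine ⟨R, h1, h2, h3, fun M _ => (h4 M).imp (fun h => ?_)
    fun h => Or.inl (Pool.Agent.Helper73.V7.IsTwist.of_row3 h)⟩
  exact isGood_of_uniruled (Pool.Agent.Helper48.V9.fg_sub_alg (M.restrictScalars Ω)
    (hK ▸ fg_adjoin_of_finite (Set.toFinite _)) fun a =>
      Algebra.IsAlgebraic.isAlgebraic (R := M) a) h

/-- **Elliptic surfaces.** `y ^ 2 + a₁ * x * y + a₃ * y = x ^ 3 + a₂ * x ^ 2 + a₄ * x + a₆`, where `aᵢ` is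
a polynomial of degree at most `i / 2` in `w ^ n`, `K = Ω(x, y, w)`, and `n = [K : Ω(x, y, w ^ n)]` is
not zero in `Ω`. -/
theorem elliptic_power (n : ℕ) (hn : (n : Ω) ≠ 0) (a₁ a₂ a₃ a₄ a₆ : Polynomial Ω)
    (h₁ : 2 * a₁.natDegree ≤ 1) (h₂ : 2 * a₂.natDegree ≤ 2) (h₃ : 2 * a₃.natDegree ≤ 3)
    (h₄ : 2 * a₄.natDegree ≤ 4) (h₆ : 2 * a₆.natDegree ≤ 6) (x y w : K)
    (hK : adjoin Ω {x, y, w} = ⊤) (hd : Module.finrank (adjoin Ω {x, y, w ^ n}) K = n)
    (h : y ^ 2 + Polynomial.aeval (w ^ n) a₁ * x * y + Polynomial.aeval (w ^ n) a₃ * y =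
      x ^ 3 + Polynomial.aeval (w ^ n) a₂ * x ^ 2 + Polynomial.aeval (w ^ n) a₄ * x +
        Polynomial.aeval (w ^ n) a₆) : IsCover T K := by
  obtain ⟨a, b, c, F, habc, hF, hdeg, h0⟩ :=
    Pool.Agent.Helper73.V7.elliptic_data n a₁ a₂ a₃ a₄ a₆ h₁ h₂ h₃ h₄ h₆ x y w h
  exact power n hn a b c F x y w hK hd habc hF hdeg h0

/-- **Double planes.** `y ^ 2 = G(x, w ^ n) * y + F(x, w ^ n)`, `K = Ω(x, y, w)`,
`n = [K : Ω(x, y, w ^ n)]`, and for the weights `a`, `1` of `x`, `w` the degrees of `G`, `F` are at most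
`S`, `2 * S`, `S = a + 1 + ⌊n / 2⌋`. If `n = 2 * m`, then Frobenius is semisimple on the second
cohomology of `Ω(x, y, w ^ m)`; this is the function field of a K3 surface, if its singularities are
rational double points and the degree of the surface is `2 * S`. -/
theorem double_power (n : ℕ) (hn : (n : Ω) ≠ 0) (a : ℕ) (F G : MvPolynomial (Fin 2) Ω)
    (x y w : K) (hK : adjoin Ω {x, y, w} = ⊤)
    (hd : Module.finrank (adjoin Ω {x, y, w ^ n}) K = n)
    (hF : ∀ m ∈ F.support, a * m 0 + n * m 1 ≤ 2 * (a + 1 + n / 2))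
    (hG : ∀ m ∈ G.support, a * m 0 + n * m 1 ≤ a + 1 + n / 2)
    (hy : y ^ 2 = aeval ![x, w ^ n] G * y + aeval ![x, w ^ n] F)
    (h2 : ∀ m, n = 2 * m → IsGood T (adjoin Ω {x, y, w ^ m} : IntermediateField Ω K)) :
    IsCover T K :=
  isCover_of_rows hK h2 (Pool.Agent.Helper48.V10.dbl_rows' hn a F G x y w hK hd hF hG hy)

/-- **Elliptic surfaces.** The degree of `aᵢ` is at most `i * (1 + ⌊n / 2⌋) / n`. If `n = 2 * m`, then
Frobenius is semisimple on the second cohomology of `Ω(x, y, w ^ m)`, the function field of a K3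
surface or a uniruled surface. -/
theorem elliptic_power_K3 (n : ℕ) (hn : (n : Ω) ≠ 0) (a₁ a₂ a₃ a₄ a₆ : Polynomial Ω)
    (h₁ : n * a₁.natDegree ≤ 1 + n / 2) (h₂ : n * a₂.natDegree ≤ 2 * (1 + n / 2))
    (h₃ : n * a₃.natDegree ≤ 3 * (1 + n / 2)) (h₄ : n * a₄.natDegree ≤ 4 * (1 + n / 2))
    (h₆ : n * a₆.natDegree ≤ 6 * (1 + n / 2)) (x y w : K) (hK : adjoin Ω {x, y, w} = ⊤)
    (hd : Module.finrank (adjoin Ω {x, y, w ^ n}) K = n)
    (h : y ^ 2 + Polynomial.aeval (w ^ n) a₁ * x * y + Polynomial.aeval (w ^ n) a₃ * y =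
      x ^ 3 + Polynomial.aeval (w ^ n) a₂ * x ^ 2 + Polynomial.aeval (w ^ n) a₄ * x +
        Polynomial.aeval (w ^ n) a₆)
    (h2 : ∀ m, n = 2 * m → IsGood T (adjoin Ω {x, y, w ^ m} : IntermediateField Ω K)) :
    IsCover T K :=
  isCover_of_rows hK h2
    (Pool.Agent.Helper48.V10.ell_rows hn a₁ a₂ a₃ a₄ a₆ h₁ h₂ h₃ h₄ h₆ x y w hK hd h)

end Examples

/-- `Ω` is an algebraic closure of the field with `p` elements, and `V` with `Fr` and `r` is the
second cohomology of a surface over the field with `p ^ e` elements, whose function field `K0` over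
`Ω` is contained in `K`. -/
theorem result {p : ℕ} [Fact p.Prime] {Ω L : Type} [Field Ω] [CharP Ω p] [IsAlgClosed Ω]
    (hΩ : ∀ c : Ω, ∃ k : ℕ, 0 < k ∧ c ^ p ^ k = c) [Field L] [CharZero L] [IsAlgClosed L]
    (T : Theory p Ω L) {K : Type} [Field K] [Algebra Ω K] (hK : IsCover T K)
    {K0 : Type} [Field K0] [Algebra Ω K0] (hfg : IsFG Ω K0) (j : K0 →ₐ[Ω] K)
    (hj : IsDominant j) {e : ℕ} (he : 0 < e) (φ : K0 →ₐ[Ω] K0) (hφ : IsFrob (p ^ e) φ)
    {V : Type} [AddCommGroup V] [Module L V] (Fr : Module.End L V) (r : V →ₗ[L] T.H 2 K0)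
    (hV : IsH2 T.toCohomology (p ^ e) φ Fr r) : Fr.IsSemisimple := by
  obtain ⟨R, hfin, hgal, hab, hM⟩ := hK
  have hfg' : ∀ M : IntermediateField R K, IsTwist Ω R M ∨ IsCurve Ω R M → IsFG Ω M := by
    rintro M (⟨n, a, b, x, y, z, w, -, -, hM', -⟩ | ⟨n, a, b, r, d, e, f, x, y, w, -, hM', -⟩)
    · show (⊤ : IntermediateField Ω M).FG
      rw [← hM']
      exact fg_adjoin_of_finite (Set.toFinite _)
    · show (⊤ : IntermediateField Ω M).FG
      rw [← hM']
      exact fg_adjoin_of_finite (Set.toFinite _)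
  have hR : (⊤ : IntermediateField Ω R).FG := by
    have hbot : IsCyclic ((⊥ : IntermediateField R K) ≃ₐ[R] (⊥ : IntermediateField R K)) := by
      have h1 : Subsingleton ((⊥ : IntermediateField R K) ≃ₐ[R] (⊥ : IntermediateField R K)) := by
        refine ⟨fun g h => AlgEquiv.ext fun a => ?_⟩
        obtain ⟨c, hc⟩ := mem_bot.1 a.2
        have h2 : a = algebraMap R (⊥ : IntermediateField R K) c := Subtype.ext hc.symm
        rw [h2, g.commutes, h.commutes]
      infer_instance
    have h0 : IsFG Ω (⊥ : IntermediateField R K) := by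
      rcases hM ⊥ hbot with h | h
      · exact h.1
      · exact hfg' _ h
    obtain ⟨S, hS⟩ := h0
    let i : (⊥ : IntermediateField R K) →ₐ[Ω] R :=
      { toFun := fun a => botEquiv R K a
        map_one' := map_one _
        map_mul' := map_mul _
        map_zero' := map_zero _
        map_add' := map_add _
        commutes' := fun c => (botEquiv R K).commutes (algebraMap Ω R c) }
    have h1 : adjoin Ω (i '' (S : Set _)) = ⊤ := by
      rw [← adjoin_map, hS, eq_top_iff]
      intro x _
      obtain ⟨a, ha⟩ := (botEquiv R K).surjective x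
      exact ⟨a, mem_top, ha⟩
    rw [← h1]
    exact fg_adjoin_of_finite (S.finite_toSet.image _)
  have hM' : ∀ M : IntermediateField R K, IsCyclic (M ≃ₐ[R] M) →
      Pool.Agent.Helper75.WC.PrimGood T.toTheory R M := by
    intro M hc
    have hG : IsGalois R M := (Pool.Agent.Helper75.WC.exists_restrict hab M).1
    rcases hM M hc with h | h
    · exact Pool.Agent.Helper75.WC.Good.prim h.1 h.2
    have hfgM := hfg' M h
    have hrow : Pool.Agent.Helper75.QC.Uniruled Ω M 2 ∨ Pool.Agent.Helper35.V7.LstN Ω R M := by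
      rcases h with h | h
      · exact Or.inr (Or.inr (Pool.Agent.Helper73.V7.IsTwist.row h))
      · exact h.row
    rcases hrow with h1 | h1
    · refine Pool.Agent.Helper75.WC.Good.prim hfgM fun e φ _ _ => ?_
      exact Pool.Agent.Helper75.TC.semisimple_of_uniruled T.toTheory h1 φ
    · exact Pool.Agent.Helper73.V7.prim_lstN hΩ T.toTheory h1
  have hG := Pool.Agent.Helper75.WC.good_abelian_prim hΩ T.toTheory R hR hab hM'
  obtain ⟨Q, hQ, hQ'⟩ := Pool.Agent.Helper75.WC.exists_gen R hR (⊤ : IntermediateField R K)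
  have hKfg : (⊤ : IntermediateField Ω K).FG := by
    have h1 : adjoin Ω Q = ⊤ := by
      rw [hQ']
      rfl
    rw [← h1]
    exact fg_adjoin_of_finite hQ
  exact (hG.of_hom hΩ T.toTheory hfg hKfg j hj).surface he φ hφ Fr r hV.toQC

end Pool.Agent.Helper73.CPN.Test
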